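import Pool.Agent.helper47.TFQ.Spec

/-!
# Project tfq: QD5
-/

set_option autoImplicit false

namespace Pool.Agent.TFQ

open Polynomial Pool.Agent.GJ Pool.Agent.TK
open Pool.Agent.FJ (VT Om chiO IsFrobO rf rs)
open Pool.Agent.TD (zK)

noncomputable section

theorem QD5_unit {K : Type} [Field K] {l n : ℕ} {μ : Fin (n + 1) → ℕ} {b : Fin (n + 1) → K}
    (hμ : ∀ j, 0 < μ j) (j : Fin (n + 1)) :
    IsUnit (CR.x - algebraMap K (CR K l μ b) (b j)) := by
  have h := CR.unit_f (A := K) (l := l) (μ := μ) (a := b)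
  rw [CR.pol_fp] at h
  have h2 : (CR.x - algebraMap K (CR K l μ b) (b j)) ∣
      ∏ j, (CR.x - algebraMap K (CR K l μ b) (b j)) ^ μ j :=
    (dvd_pow_self _ (hμ j).ne').trans (Finset.dvd_prod_of_mem
      (fun j => (CR.x - algebraMap K (CR K l μ b) (b j)) ^ μ j) (Finset.mem_univ j))
  exact isUnit_of_dvd_unit h2 h

/-- the product over the group -/
def QD5_P {K : Type} [Field K] {F : Type} [Field F] [Fintype F] [DecidableEq F] (e : F →+* K) {n : ℕ} (α : ℕ)
    (μ : Fin (n + 1) → ℕ) (β : Fin (n + 1) → K) : MvPolynomial (Fin (n + 1)) K :=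
  ∏ w ∈ HQ (F := F) α μ,
    (∑ j, MvPolynomial.C (β j * e (w j : F)) * MvPolynomial.X j - 1)

theorem QD5_tau {K : Type} [Field K] {n : ℕ} (c : Fin (n + 1) → K)
    (P : MvPolynomial (Fin (n + 1)) K) (m : Fin (n + 1) →₀ ℕ) :
    MvPolynomial.coeff m (MvPolynomial.aeval
      (fun j => (MvPolynomial.C (c j) * MvPolynomial.X j : MvPolynomial (Fin (n + 1)) K)) P) =
      (∏ j, c j ^ m j) * MvPolynomial.coeff m P := by
  induction P using MvPolynomial.induction_on' with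
  | monomial u r =>
    rw [MvPolynomial.aeval_monomial, Finsupp.prod_fintype _ _ (fun i => pow_zero _)]
    have h1 : ∏ i, (MvPolynomial.C (c i) * MvPolynomial.X i : MvPolynomial (Fin (n + 1)) K) ^ u i =
        MvPolynomial.C (∏ i, c i ^ u i) * MvPolynomial.monomial u 1 := by
      rw [MvPolynomial.monomial_eq, Finsupp.prod_fintype _ _ (fun i => pow_zero _), map_one, one_mul,
        map_prod, ← Finset.prod_mul_distrib]
      refine Finset.prod_congr rfl fun i _ => ?_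
      rw [mul_pow, map_pow]
    rw [h1, MvPolynomial.algebraMap_eq, MvPolynomial.coeff_C_mul, MvPolynomial.coeff_C_mul,
      MvPolynomial.coeff_monomial, MvPolynomial.coeff_monomial]
    by_cases hum : u = m
    · subst hum
      rw [if_pos rfl, if_pos rfl]
      ring
    · rw [if_neg hum, if_neg hum]
      ring
  | add p q hp hq =>
    rw [map_add, MvPolynomial.coeff_add, hp, hq, MvPolynomial.coeff_add, mul_add]

theorem QD5_chi_mul {F : Type} [Field F] [Fintype F] [DecidableEq F] {n : ℕ} (α : ℕ) (μ : Fin (n + 1) → ℕ)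
    (v w : Fin (n + 1) → Fˣ) :
    chq α μ (fun j => ((v * w) j : F)) =
      chq α μ (fun j => (v j : F)) * chq α μ (fun j => (w j : F)) := by
  unfold chq
  rw [← Finset.prod_mul_distrib]
  refine Finset.prod_congr rfl fun j _ => ?_
  show ((v * w) j : F) ^ (μ j * α) = (v j : F) ^ (μ j * α) * (w j : F) ^ (μ j * α)
  rw [Pi.mul_apply, Units.val_mul, mul_pow]

theorem QD5_mem {F : Type} [Field F] [Fintype F] [DecidableEq F] {n : ℕ} (α : ℕ) (μ : Fin (n + 1) → ℕ)
    (v : Fin (n + 1) → Fˣ) :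
    v ∈ HQ (F := F) α μ ↔ chq α μ (fun j => (v j : F)) = 1 := by
  classical
  unfold HQ
  rw [Finset.mem_filter]
  exact ⟨fun h => h.2, fun h => ⟨Finset.mem_univ _, h⟩⟩

theorem QD5_mul_mem {F : Type} [Field F] [Fintype F] [DecidableEq F] {n : ℕ} (α : ℕ) (μ : Fin (n + 1) → ℕ)
    {v w : Fin (n + 1) → Fˣ} (hv : v ∈ HQ (F := F) α μ) (hw : w ∈ HQ (F := F) α μ) :
    v * w ∈ HQ (F := F) α μ := by
  rw [QD5_mem] at hv hw ⊢
  rw [QD5_chi_mul, hv, hw, one_mul]

theorem QD5_inv_mem {F : Type} [Field F] [Fintype F] [DecidableEq F] {n : ℕ} (α : ℕ) (μ : Fin (n + 1) → ℕ)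
    {v : Fin (n + 1) → Fˣ} (hv : v ∈ HQ (F := F) α μ) :
    v⁻¹ ∈ HQ (F := F) α μ := by
  rw [QD5_mem] at hv ⊢
  have h := QD5_chi_mul α μ v⁻¹ v
  rw [hv, mul_one] at h
  rw [← h]
  unfold chq
  refine Finset.prod_eq_one fun j _ => ?_
  show ((v⁻¹ * v) j : F) ^ (μ j * α) = 1
  rw [inv_mul_cancel, Pi.one_apply, Units.val_one, one_pow]

theorem QD5_inv {K : Type} [Field K] {F : Type} [Field F] [Fintype F] [DecidableEq F] (e : F →+* K) {n : ℕ} (α : ℕ)
    (μ : Fin (n + 1) → ℕ) (β : Fin (n + 1) → K) (v : Fin (n + 1) → Fˣ)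
    (hv : v ∈ HQ (F := F) α μ) :
    MvPolynomial.aeval (fun j => (MvPolynomial.C (e (v j : F)) * MvPolynomial.X j :
      MvPolynomial (Fin (n + 1)) K)) (QD5_P e α μ β) = QD5_P e α μ β := by
  unfold QD5_P
  rw [map_prod]
  refine Finset.prod_nbij' (fun w => w * v) (fun w => w * v⁻¹) ?_ ?_ ?_ ?_ ?_
  · intro w hw
    exact QD5_mul_mem α μ hw hv
  · intro w hw
    exact QD5_mul_mem α μ hw (QD5_inv_mem α μ hv)
  · intro w _
    exact mul_inv_cancel_right w v
  · intro w _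
    exact inv_mul_cancel_right w v
  · intro w _
    rw [map_sub, map_one, map_sum]
    refine congrArg (fun z => z - 1) (Finset.sum_congr rfl fun j _ => ?_)
    rw [map_mul, MvPolynomial.aeval_C, MvPolynomial.aeval_X, MvPolynomial.algebraMap_eq, ← mul_assoc,
      ← map_mul]
    refine congrArg (fun z => MvPolynomial.C z * MvPolynomial.X j) ?_
    rw [Pi.mul_apply, Units.val_mul, map_mul, mul_assoc]

theorem QD5_char {K : Type} [Field K] {F : Type} [Field F] [Fintype F] [DecidableEq F] (e : F →+* K) {n : ℕ} (α : ℕ)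
    (μ : Fin (n + 1) → ℕ) (β : Fin (n + 1) → K) (m : Fin (n + 1) →₀ ℕ)
    (hm : MvPolynomial.coeff m (QD5_P e α μ β) ≠ 0) (v : Fin (n + 1) → Fˣ)
    (hv : v ∈ HQ (F := F) α μ) : ∏ j, (v j) ^ (m j) = 1 := by
  have h := QD5_tau (fun j => e (v j : F)) (QD5_P e α μ β) m
  rw [QD5_inv e α μ β v hv] at h
  have h2 : (∏ j, e (v j : F) ^ m j) = 1 :=
    (mul_eq_right₀ hm).1 h.symm
  apply Units.ext
  apply e.injective
  rw [Units.val_one, map_one, ← h2, Units.coe_prod, map_prod]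
  refine Finset.prod_congr rfl fun j _ => ?_
  rw [Units.val_pow_eq_pow_val, map_pow]

theorem QD5_eval {K : Type} [Field K] {F : Type} [Field F] [Fintype F] [DecidableEq F] (e : F →+* K) {n : ℕ} (α : ℕ)
    (μ : Fin (n + 1) → ℕ) (β : Fin (n + 1) → K) {B : Type} [CommRing B] (φ : K →+* B)
    (t : Fin (n + 1) → B) :
    MvPolynomial.eval₂ φ t (QD5_P e α μ β) =
      ∏ w ∈ HQ (F := F) α μ, (∑ j, φ (β j * e (w j : F)) * t j - 1) := by
  unfold QD5_P
  rw [← MvPolynomial.coe_eval₂Hom, map_prod]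
  refine Finset.prod_congr rfl fun w _ => ?_
  rw [map_sub, map_one, map_sum]
  refine congrArg (fun z => z - 1) (Finset.sum_congr rfl fun j _ => ?_)
  rw [map_mul, MvPolynomial.eval₂Hom_C, MvPolynomial.eval₂Hom_X']

theorem QD5 (hQD4 : QD4_stmt) : QD5_stmt := by
  intro F _ _ _ K _ e l α n _ μ a β hl hα hμ
  have hp1 : cq F - 1 ≠ 0 := by
    have h1c : 1 < cq F := Fintype.one_lt_card
    omega
  have hU : ∀ j, ∃ U : (CR K l μ (bQ e a))ˣ,
      (U : CR K l μ (bQ e a)) = CR.x - algebraMap K _ (bQ e a j) := fun j =>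
    QD5_unit (fun j => (hμ j).1) j
  choose U hU using hU
  have hks : ∀ m ∈ (QD5_P e α μ β).support, ∃ k : ℕ, ∃ s : Fin (n + 1) → ℤ,
      ∀ j, (m j : ℤ) = k * μ j * α + ((cq F - 1 : ℕ) : ℤ) * s j := by
    intro m hm
    obtain ⟨k, _, hk⟩ := hQD4 F l α n μ hl hα hμ m
      (fun w hw => QD5_char e α μ β m (MvPolynomial.mem_support_iff.1 hm) w hw)
    choose s hs using hk
    refine ⟨k, s, fun j => ?_⟩
    have := hs j
    linarith
  choose! k s hks using hks
  refine ⟨∑ m ∈ (QD5_P e α μ β).support,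
    algebraMap K (CR K l μ (bQ e a)) (MvPolynomial.coeff m (QD5_P e α μ β)) *
      (CR.y ^ (k m) * ∏ j, ((U j ^ s m j : (CR K l μ (bQ e a))ˣ) : CR K l μ (bQ e a))), ?_⟩
  intro B _ E t ht hy
  have hev := QD5_eval e α μ β (E.comp (algebraMap K (CR K l μ (bQ e a)))) t
  have hev2 : ∏ w ∈ HQ (F := F) α μ, (∑ j, E (algebraMap K _ (β j * e (w j : F))) * t j - 1) =
      MvPolynomial.eval₂ (E.comp (algebraMap K (CR K l μ (bQ e a)))) t (QD5_P e α μ β) := hev.symm
  rw [hev2, MvPolynomial.eval₂_eq', map_sum]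
  have hT : ∀ j, ∃ T : Bˣ, (T : B) = t j := by
    intro j
    have h1 : IsUnit (t j ^ (cq F - 1)) := by
      rw [ht j, ← hU j]
      exact (U j).isUnit.map E
    exact (isUnit_pow_iff hp1).1 h1
  choose T hT using hT
  have hTU : ∀ j, T j ^ (cq F - 1) = Units.map (E : CR K l μ (bQ e a) →* B) (U j) := by
    intro j
    apply Units.ext
    rw [Units.val_pow_eq_pow_val, hT, ht, Units.coe_map, hU]
    rfl
  refine Finset.sum_congr rfl fun m hm => ?_
  rw [map_mul, map_mul, map_pow, hy, map_prod, RingHom.comp_apply]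
  refine congrArg (fun z => E (algebraMap K (CR K l μ (bQ e a))
    (MvPolynomial.coeff m (QD5_P e α μ β))) * z) ?_
  rw [← Finset.prod_pow, ← Finset.prod_mul_distrib]
  refine Finset.prod_congr rfl fun j _ => ?_
  have h3 : E ((U j ^ s m j : (CR K l μ (bQ e a))ˣ) : CR K l μ (bQ e a)) =
      ((T j ^ (((cq F - 1 : ℕ) : ℤ) * s m j) : Bˣ) : B) := by
    rw [zpow_mul, zpow_natCast, hTU j, ← map_zpow]
    rfl
  rw [h3, ← hT j, ← Units.val_pow_eq_pow_val, ← Units.val_pow_eq_pow_val, ← Units.val_pow_eq_pow_val,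
    ← Units.val_mul]
  refine congrArg Units.val ?_
  rw [← zpow_natCast, ← zpow_natCast, ← zpow_natCast (T j) (m j), ← zpow_mul, ← zpow_add, hks m hm j]
  congr 1
  push_cast
  ring

end

end Pool.Agent.TFQ
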